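import Mathlib

/-!
# The covering properties `K_Ω`-Lindelöf and `S₁(K_Ω, K_Ω)`
-/

namespace Q211.KO

open Set Filter Topology TopologicalSpace Cardinal

/-- Lusin sets. -/
def Lusin (X : Type*) [TopologicalSpace X] : Prop :=
  SeparableSpace X ∧ MetrizableSpace X ∧ Uncountable X ∧ ∀ M : Set X, IsMeagre M → M.Countable

/-- The families `K`. -/
def K (X : Type*) [TopologicalSpace X] : Set (Set (Set X)) :=
  {𝒰 | (∀ U ∈ 𝒰, IsOpen U) ∧ (⋃ U ∈ 𝒰, closure U) = univ}

/-- The families `K_Ω`. -/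
def KOm (X : Type*) [TopologicalSpace X] : Set (Set (Set X)) :=
  {𝒰 | 𝒰 ∈ K X ∧ (∀ U ∈ 𝒰, ¬ Dense U) ∧
    ∀ F : Set X, F.Finite → ∃ U ∈ 𝒰, F ⊆ closure U}

/-- `K_Ω`-Lindelöf spaces. -/
def KOmLindelof (X : Type*) [TopologicalSpace X] : Prop :=
  ∀ 𝒰 ∈ KOm X, ∃ 𝒱 ⊆ 𝒰, 𝒱.Countable ∧ 𝒱 ∈ KOm X

/-- The selection principle `S₁(K_Ω, K_Ω)`. -/
def S1 (X : Type*) [TopologicalSpace X] : Prop :=
  ∀ 𝒰 : ℕ → Set (Set X), (∀ n, 𝒰 n ∈ KOm X) →
    ∃ U : ℕ → Set X, (∀ n, U n ∈ 𝒰 n) ∧ range U ∈ KOm X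

/-- Strong Lusin property: for every nowhere dense closed set `N` of `k`-tuples there is a
countable set which meets every injective tuple of `N`. -/
def SL (X : Type*) [TopologicalSpace X] : Prop :=
  ∀ (k : ℕ) (N : Set (Fin k → X)), IsClosed N → interior N = ∅ →
    ∃ A : Set X, A.Countable ∧ ∀ t : Fin k → X, Function.Injective t → (∀ i, t i ∉ A) → t ∉ N

theorem range_mem {X : Type*} [TopologicalSpace X] {𝒰 : ℕ → Set (Set X)}
    (h𝒰 : ∀ n, 𝒰 n ∈ KOm X) {U : ℕ → Set X} (hU : ∀ n, U n ∈ 𝒰 n)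
    (hF : ∀ F : Finset X, ∃ n, (F : Set X) ⊆ closure (U n)) : range U ∈ KOm X := by
  have hopen : ∀ n, IsOpen (U n) := fun n => (h𝒰 n).1.1 _ (hU n)
  refine ⟨⟨?_, ?_⟩, ?_, fun F hFf => ?_⟩
  · rintro _ ⟨n, rfl⟩
    exact hopen n
  · refine eq_univ_of_forall fun x => ?_
    obtain ⟨n, hn⟩ := hF {x}
    exact mem_iUnion₂.2 ⟨U n, ⟨n, rfl⟩, hn (by simp)⟩
  · rintro _ ⟨n, rfl⟩
    exact (h𝒰 n).2.1 _ (hU n)
  · obtain ⟨n, hn⟩ := hF hFf.toFinset
    exact ⟨U n, ⟨n, rfl⟩, by simpa using hn⟩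

/-- The strong Lusin property implies `S₁(K_Ω, K_Ω)`. -/
theorem s1_of_sl {X : Type*} [TopologicalSpace X] [SecondCountableTopology X] (hSL : SL X) :
    S1 X := by
  classical
  intro 𝒰 h𝒰
  -- the requirements
  let Rq : Type _ := Σ k : ℕ, (Fin k → countableBasis X)
  have hRqc : Countable Rq := by
    have : Countable (countableBasis X) := (countable_countableBasis X).to_subtype
    infer_instance
  obtain ⟨code, hcode⟩ := Countable.exists_injective_nat Rq
  have hex : ∀ (F : Finset X) (r : Rq) (n : ℕ), ∃ U ∈ 𝒰 n, (F : Set X) ⊆ closure U ∧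
      ∀ i, ((r.2 i : Set X)).Nonempty → (U ∩ (r.2 i : Set X)).Nonempty := by
    intro F r n
    have hpt : ∀ i, ∃ S : Set X, S.Finite ∧ (((r.2 i : Set X)).Nonempty →
        (S ∩ (r.2 i : Set X)).Nonempty) := by
      intro i
      by_cases h : ((r.2 i : Set X)).Nonempty
      · obtain ⟨x, hx⟩ := h
        exact ⟨{x}, finite_singleton x, fun _ => ⟨x, rfl, hx⟩⟩
      · exact ⟨∅, finite_empty, fun h' => absurd h' h⟩
    choose S hS hSne using hpt
    obtain ⟨U, hU, hFU⟩ := (h𝒰 n).2.2 ((F : Set X) ∪ ⋃ i, S i)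
      (F.finite_toSet.union (finite_iUnion hS))
    refine ⟨U, hU, (subset_union_left).trans hFU, fun i hi => ?_⟩
    obtain ⟨x, hxS, hxB⟩ := hSne i hi
    have hx : x ∈ closure U := hFU (Or.inr (mem_iUnion.2 ⟨i, hxS⟩))
    have hB : IsOpen (r.2 i : Set X) := isOpen_of_mem_countableBasis (r.2 i).2
    obtain ⟨y, hy1, hy2⟩ := mem_closure_iff.1 hx _ hB hxB
    exact ⟨y, hy2, hy1⟩
  choose g hg𝒰 hgF hgB using hex
  -- the sets of uncovered tuples
  let N : Finset X → ℕ → (k : ℕ) → Set (Fin k → X) := fun F j k =>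
    {t | ∀ r : Rq, ¬ ∀ i, t i ∈ g F r (Nat.pair j (code r))}
  have hNc : ∀ F j k, IsClosed (N F j k) := by
    intro F j k
    have e : N F j k = (⋃ r : Rq, {t : Fin k → X | ∀ i, t i ∈ g F r (Nat.pair j (code r))})ᶜ := by
      ext t; simp [N]
    rw [e, isClosed_compl_iff]
    refine isOpen_iUnion fun r => ?_
    have e2 : {t : Fin k → X | ∀ i, t i ∈ g F r (Nat.pair j (code r))} =
        Set.pi univ fun _ => g F r (Nat.pair j (code r)) := by
      ext t; simp
    rw [e2]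
    exact isOpen_set_pi finite_univ fun i _ => (h𝒰 _).1.1 _ (hg𝒰 F r _)
  have hNi : ∀ F j k, interior (N F j k) = ∅ := by
    intro F j k
    rw [eq_empty_iff_forall_notMem]
    intro t ht
    obtain ⟨u, hu1, hu2⟩ := isOpen_pi_iff'.1 isOpen_interior t ht
    have hB : ∀ i, ∃ B : countableBasis X, t i ∈ (B : Set X) ∧ (B : Set X) ⊆ u i := by
      intro i
      obtain ⟨B, hB1, hB2, hB3⟩ := (isBasis_countableBasis X).exists_subset_of_mem_open
        (hu1 i).2 (hu1 i).1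
      exact ⟨⟨B, hB1⟩, hB2, hB3⟩
    choose B hB1 hB2 using hB
    let r : Rq := ⟨k, B⟩
    have h1 : ∀ i, (g F r (Nat.pair j (code r)) ∩ (B i : Set X)).Nonempty := fun i =>
      hgB F r _ i ⟨t i, hB1 i⟩
    choose s hs1 hs2 using h1
    have h2 : s ∈ N F j k := interior_subset (hu2 fun i _ => hB2 i (hs2 i))
    exact h2 r hs1
  choose A hAc hA using fun F j k => hSL k (N F j k) (hNc F j k) (hNi F j k)
  let As : Finset X → Set X := fun F => ⋃ j, ⋃ k, A F j k
  have hAsc : ∀ F, (As F).Countable := fun F =>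
    countable_iUnion fun j => countable_iUnion fun k => hAc F j k
  -- closing off
  let C : ℕ → Set X := fun n => Nat.rec ∅ (fun _ D => D ∪ ⋃ F ∈ {F : Finset X | (F : Set X) ⊆ D},
    As F) n
  have hCs : ∀ n, C (n+1) = C n ∪ ⋃ F ∈ {F : Finset X | (F : Set X) ⊆ C n}, As F := fun n => rfl
  have hfc : ∀ D : Set X, D.Countable → {F : Finset X | (F : Set X) ⊆ D}.Countable := by
    intro D hD
    have h1 := Set.countable_setOf_finite_subset hD
    refine (h1.preimage_of_injOn (f := fun F : Finset X => (F : Set X))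
      Finset.coe_injective.injOn).mono fun F hF => ⟨F.finite_toSet, hF⟩
  have hCc : ∀ n, (C n).Countable := by
    intro n
    induction n with
    | zero => exact countable_empty
    | succ n ih =>
        rw [hCs]
        exact ih.union ((hfc _ ih).biUnion fun F _ => hAsc F)
  have hCm : Monotone C := monotone_nat_of_le_succ fun n => by
    rw [hCs]; exact subset_union_left
  set D : Set X := ⋃ n, C n with hD
  have hDc : D.Countable := countable_iUnion hCc
  have hDF : ∀ F : Finset X, (F : Set X) ⊆ D → As F ⊆ D := by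
    intro F hF
    have h1 : ∃ n, (F : Set X) ⊆ C n := by
      clear_value C
      induction F using Finset.induction_on with
      | empty => exact ⟨0, by simp⟩
      | insert a s has ih =>
          rw [Finset.coe_insert, insert_subset_iff] at hF
          obtain ⟨n, hn⟩ := ih hF.2
          obtain ⟨m, hm⟩ := mem_iUnion.1 hF.1
          refine ⟨max n m, ?_⟩
          rw [Finset.coe_insert, insert_subset_iff]
          exact ⟨hCm (le_max_right _ _) hm, hn.trans (hCm (le_max_left _ _))⟩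
    obtain ⟨n, hn⟩ := h1
    intro x hx
    refine mem_iUnion.2 ⟨n+1, ?_⟩
    rw [hCs]
    exact Or.inr (mem_iUnion₂.2 ⟨F, hn, hx⟩)
  have hcount : Countable {F : Finset X // (F : Set X) ⊆ D} := (hfc D hDc).to_subtype
  obtain ⟨J, hJ⟩ := Countable.exists_injective_nat {F : Finset X // (F : Set X) ⊆ D}
  -- the selection
  have hsel : ∀ n : ℕ, ∃ U ∈ 𝒰 n, ∀ (F : {F : Finset X // (F : Set X) ⊆ D}) (r : Rq),
      n = Nat.pair (J F) (code r) → U = g F.1 r n := by
    intro n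
    by_cases h : ∃ (F : {F : Finset X // (F : Set X) ⊆ D}) (r : Rq), n = Nat.pair (J F) (code r)
    · obtain ⟨F, r, hn⟩ := h
      refine ⟨g F.1 r n, hg𝒰 _ _ _, fun F' r' hn' => ?_⟩
      rw [hn] at hn'
      obtain ⟨h1, h2⟩ := Nat.pair_eq_pair.1 hn'
      rw [hJ h1, hcode h2]
    · obtain ⟨U, hU, -⟩ := (h𝒰 n).2.2 ∅ finite_empty
      exact ⟨U, hU, fun F r hn => absurd ⟨F, r, hn⟩ h⟩
  choose U hU𝒰 hUg using hsel
  refine ⟨U, hU𝒰, range_mem h𝒰 hU𝒰 fun F => ?_⟩
  set F₀ : Finset X := F.filter (· ∈ D) with hF₀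
  set F₁ : Finset X := F.filter (· ∉ D) with hF₁
  have hF₀D : (F₀ : Set X) ⊆ D := fun x hx => (Finset.mem_filter.1 hx).2
  let F₀' : {F : Finset X // (F : Set X) ⊆ D} := ⟨F₀, hF₀D⟩
  set e := F₁.equivFin with he
  let t : Fin F₁.card → X := fun i => (e.symm i : X)
  have ht : Function.Injective t := Subtype.val_injective.comp e.symm.injective
  have htD : ∀ i, t i ∉ D := fun i => (Finset.mem_filter.1 (e.symm i).2).2
  have htN : t ∉ N F₀ (J F₀') F₁.card := by
    refine hA _ _ _ t ht fun i hi => htD i (hDF F₀ hF₀D ?_)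
    exact mem_iUnion.2 ⟨J F₀', mem_iUnion.2 ⟨F₁.card, hi⟩⟩
  have htN' : ∃ r : Rq, ∀ i, t i ∈ g F₀ r (Nat.pair (J F₀') (code r)) := by
    by_contra hcon
    push Not at hcon
    apply htN
    intro r hr
    obtain ⟨i, hi⟩ := hcon r
    exact hi (hr i)
  obtain ⟨r, hr⟩ := htN'
  refine ⟨Nat.pair (J F₀') (code r), ?_⟩
  rw [hUg _ F₀' r rfl]
  intro x hx
  by_cases hxD : x ∈ D
  · exact hgF F₀ r _ (Finset.mem_coe.2 (Finset.mem_filter.2 ⟨hx, hxD⟩))
  · have hx1 : x ∈ F₁ := Finset.mem_filter.2 ⟨hx, hxD⟩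
    have h2 := hr (e ⟨x, hx1⟩)
    have h3 : t (e ⟨x, hx1⟩) = x := by
      show ((e.symm (e ⟨x, hx1⟩) : F₁) : X) = x
      rw [Equiv.symm_apply_apply]
    rw [h3] at h2
    exact subset_closure h2

end Q211.KO
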